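import Pool.Agent.N889.WU.Stm

set_option autoImplicit false

/-! GLU: an element which is locally regular has regular trace (project WU of helper889). -/

open Polynomial IntermediateField

namespace Pool.Agent.N901.WU.GLU

open Pool.Agent.N889.WU

universe u

section

variable {k L : Type u} [Field k] [Field L] [Algebra k L]

theorem TrL_add (F : IntermediateField k L) (x y : L) : TrL F (x + y) = TrL F x + TrL F y := by
  simp only [TrL, map_add]

theorem TrL_neg (F : IntermediateField k L) (x : L) : TrL F (-x) = -TrL F x := by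
  simp only [TrL, map_neg]

theorem TrL_zero (F : IntermediateField k L) : TrL F (0 : L) = 0 := by
  simp only [TrL, map_zero]

/-- The complementary module of the integral closure. -/
def Bst (π : L) : AddSubgroup L where
  carrier := {x | ∀ b : L, IsIntegral (Oz k π) b → TrL k⟮π⟯ (b * x) ∈ Oz k π}
  add_mem' := by
    intro x y hx hy b hb
    rw [mul_add, TrL_add]
    exact (Oz k π).add_mem (hx b hb) (hy b hb)
  zero_mem' := by
    intro b _
    rw [mul_zero, TrL_zero]
    exact (Oz k π).zero_mem
  neg_mem' := by
    intro x hx b hb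
    rw [mul_neg, TrL_neg]
    exact (Oz k π).neg_mem (hx b hb)

theorem mem_Bst {π x : L} : x ∈ Bst (k := k) π ↔
    ∀ b : L, IsIntegral (Oz k π) b → TrL k⟮π⟯ (b * x) ∈ Oz k π := Iff.rfl

theorem Bst_mul {π x c : L} (hc : IsIntegral (Oz k π) c) (hx : x ∈ Bst (k := k) π) :
    c * x ∈ Bst (k := k) π := by
  intro b hb
  rw [← mul_assoc]
  exact hx _ (hb.mul hc)

/-- The local module at a prime ideal. -/
def Nm (π : L) (m : Ideal (integralClosure (Oz k π) L)) (hm : m.IsPrime) : AddSubgroup L where
  carrier := {x | ∃ r : integralClosure (Oz k π) L, r ∉ m ∧ (r : L) * x ∈ Bst (k := k) π}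
  add_mem' := by
    rintro x y ⟨r, hr, hx⟩ ⟨s, hs, hy⟩
    refine ⟨r * s, fun h => (hm.mem_or_mem h).elim hr hs, ?_⟩
    have e : ((r * s : integralClosure (Oz k π) L) : L) * (x + y) =
        (s : L) * ((r : L) * x) + (r : L) * ((s : L) * y) := by
      push_cast
      ring
    rw [e]
    exact (Bst (k := k) π).add_mem (Bst_mul s.2 hx) (Bst_mul r.2 hy)
  zero_mem' := by
    refine ⟨1, fun h => hm.ne_top ((Ideal.eq_top_iff_one m).2 h), ?_⟩
    rw [mul_zero]
    exact (Bst (k := k) π).zero_mem
  neg_mem' := by
    rintro x ⟨r, hr, hx⟩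
    refine ⟨r, hr, ?_⟩
    rw [mul_neg]
    exact (Bst (k := k) π).neg_mem hx

theorem mem_Nm {π x : L} {m : Ideal (integralClosure (Oz k π) L)} {hm : m.IsPrime} :
    x ∈ Nm π m hm ↔
      ∃ r : integralClosure (Oz k π) L, r ∉ m ∧ (r : L) * x ∈ Bst (k := k) π := Iff.rfl

end

theorem t_GLU (hPL : S_PL.{u}) (hTR : S_TRREG.{u}) : S_GLU.{u} := by
  intro k L _ _ _ _ π D hπ hD y hy
  have hDB : ∀ b : L, IsIntegral (Oz k π) b → D b ∈ Bst (k := k) π := fun b hb a ha =>
    hTR k L π D hπ hD a b ha hb
  let I : Ideal (integralClosure (Oz k π) L) :=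
    { carrier := {r | (r : L) * y ∈ Bst (k := k) π}
      add_mem' := by
        intro r s hr hs
        have e : ((r + s : integralClosure (Oz k π) L) : L) * y = (r : L) * y + (s : L) * y := by
          push_cast
          ring
        change ((r + s : integralClosure (Oz k π) L) : L) * y ∈ Bst (k := k) π
        rw [e]
        exact (Bst (k := k) π).add_mem hr hs
      zero_mem' := by
        change ((0 : integralClosure (Oz k π) L) : L) * y ∈ Bst (k := k) π
        rw [ZeroMemClass.coe_zero, zero_mul]
        exact (Bst (k := k) π).zero_mem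
      smul_mem' := by
        intro c r hr
        have e : ((c * r : integralClosure (Oz k π) L) : L) * y = (c : L) * ((r : L) * y) := by
          push_cast
          ring
        change ((c * r : integralClosure (Oz k π) L) : L) * y ∈ Bst (k := k) π
        rw [e]
        exact Bst_mul c.2 hr }
  have hI : ∀ r : integralClosure (Oz k π) L, r ∈ I ↔ (r : L) * y ∈ Bst (k := k) π :=
    fun _ => Iff.rfl
  have htop : I = ⊤ := by
    by_contra hne
    obtain ⟨m, hm, hIm⟩ := Ideal.exists_le_maximal I hne
    obtain ⟨A, hA, hmem⟩ := hPL k L π hπ m hm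
    have hst : Stable A D (Nm π m hm.isPrime) := by
      constructor
      · intro a ha n hn
        obtain ⟨b, r, hr, hab⟩ := (hmem a).1 ha
        obtain ⟨s, hs, hsn⟩ := hn
        refine ⟨r * s, fun h => (hm.isPrime.mem_or_mem h).elim hr hs, ?_⟩
        have e : ((r * s : integralClosure (Oz k π) L) : L) * (a * n) =
            (b : L) * ((s : L) * n) := by
          push_cast
          rw [← hab]
          ring
        rw [e]
        exact Bst_mul b.2 hsn
      · intro a ha
        obtain ⟨b, r, hr, hab⟩ := (hmem a).1 ha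
        refine ⟨r * r, fun h => (hm.isPrime.mem_or_mem h).elim hr hr, ?_⟩
        have hDab : D (b : L) = a * D (r : L) + (r : L) * D a := by
          rw [← hab, Derivation.leibniz, smul_eq_mul, smul_eq_mul]
        have e : ((r * r : integralClosure (Oz k π) L) : L) * D a =
            (r : L) * D (b : L) - (b : L) * D (r : L) := by
          rw [hDab, ← hab]
          push_cast
          ring
        rw [e]
        exact (Bst (k := k) π).sub_mem (Bst_mul r.2 (hDB _ b.2)) (Bst_mul b.2 (hDB _ r.2))
    obtain ⟨r, hr, hry⟩ := hy A hA (Nm π m hm.isPrime) hst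
    exact hr (hIm ((hI r).2 hry))
  have h1 : (1 : integralClosure (Oz k π) L) ∈ I := by
    rw [htop]
    exact Submodule.mem_top
  have h2 := (hI 1).1 h1
  rw [OneMemClass.coe_one, one_mul] at h2
  have h3 := h2 1 isIntegral_one
  rwa [one_mul] at h3

end Pool.Agent.N901.WU.GLU
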